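import Pool.Agent.H314.MA.Fin
import Pool.Agent.H314.MA.Int

set_option autoImplicit false

open MeasureTheory Pool.Agent.H314.MA
open scoped ContDiff

namespace Pool.Agent.Results.MP_ada39e_an.LineSingularity

/-- A negative answer to the question of Di Nezza and Lu. Here `X` is the complex projective
plane, `ω = dd^c log ‖Z‖` is the Fubini-Study form (total volume `V = 1`), `D = {Z₀ = 0}`, so that
`X \ D` is the affine chart `C2`. There are `φ` and a density `f` such that

* `φ` is `ω`-plurisubharmonic on `X`, and is given on `X \ D` by a continuous function `g`,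
  integrable with respect to `ω²`;
* `f` is smooth and strictly positive on `X \ D`, integrable, with `∫ f ω² = V`;
* the non-pluripolar product `⟨(ω + dd^c φ)²⟩` is `f ω²`, and its total mass is `V`
  (so `φ` belongs to the finite energy class and solves the equation);
* `φ` is not differentiable at any point of the curve `{z₁ = 0}` of `X \ D`. -/
theorem result :
    ∃ (φ : C3 → EReal) (g f : C2 → ℝ),
      (IsOmegaPsh φ ∧ (∀ z, φ (chart z) = ((g z : ℝ) : EReal)) ∧ Continuous g ∧
        Integrable g omegaSq) ∧
      omegaSq Set.univ = 1 ∧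
      (ContDiff ℝ ∞ f ∧ (∀ z, 0 < f z) ∧ Integrable f omegaSq ∧ ∫ z, f z ∂omegaSq = 1) ∧
      (IsNonPluripolar φ (omegaSq.withDensity fun z => ENNReal.ofReal (f z)) ∧
        (omegaSq.withDensity fun z => ENNReal.ofReal (f z)) Set.univ = omegaSq Set.univ) ∧
      ∀ b : ℂ, ¬ DifferentiableAt ℝ g (0, b) := by
  refine ⟨phi, fun z => U z - pot z, ff, ⟨isOmegaPsh_phi, phi_chart,
    U_continuous.sub pot_contDiff.continuous, phi_integrable⟩, omegaSq_univ,
    ⟨ff_contDiff, ff_pos, ff_integrable, ff_integral⟩, ⟨?_, ?_⟩, fun b h => ?_⟩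
  · rw [withDensity_ff]; exact nonPluripolar_phi
  · rw [withDensity_ff, nu_univ, omegaSq_univ]
  · apply phi_not_differentiable b
    have e : (fun z : C2 => (phi (chart z)).toReal) = fun z => U z - pot z := by
      funext z
      rw [phi_chart, EReal.toReal_coe]
    rw [e]; exact h

end Pool.Agent.Results.MP_ada39e_an.LineSingularity
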